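import Pool.Agent.H37.CTL.Stmts

/-!
# Board `ctl`, row T32 (helper80): the cover defined by `T ^ (q ^ 3) + a T ^ (q ^ 2) + b T ^ q + T`
-/

set_option autoImplicit false

namespace Pool.CND

open Finset Polynomial

/-! ## The Moore determinant -/

/-- the combinations of the `X i` -/
theorem t32_comb_inj {F L : Type} [Field F] [Field L] (φ : F →+* L) (X : Fin 3 → L)
    (ind : ∀ c : Fin 3 → F, ∑ i, φ (c i) * X i = 0 → c = 0) (c d : Fin 3 → F)
    (h : ∑ i, φ (c i) * X i = ∑ i, φ (d i) * X i) : c = d := by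
  rw [← sub_eq_zero]
  apply ind
  have e : ∀ i, φ ((c - d) i) * X i = φ (c i) * X i - φ (d i) * X i := fun i => by
    rw [Pi.sub_apply, map_sub, sub_mul]
  rw [Finset.sum_congr rfl fun i _ => e i, Finset.sum_sub_distrib, h, sub_self]

theorem t32_moore {F L : Type} [Field F] [Field L] (φ : F →+* L) {p f q : ℕ} (hp : p.Prime)
    [CharP L p] (hf : 1 ≤ f) (hq : q = p ^ f) (hF : Nat.card F = q) (X : Fin 3 → L)
    (ind : ∀ c : Fin 3 → F, ∑ i, φ (c i) * X i = 0 → c = 0) :
    (Matrix.of fun i j : Fin 3 => X i ^ q ^ (j : ℕ)).det ≠ 0 := by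
  classical
  have : Fact p.Prime := ⟨hp⟩
  have hq2 : 2 ≤ q := by
    rw [hq]
    calc 2 ≤ p := hp.two_le
      _ = p ^ 1 := (pow_one p).symm
      _ ≤ p ^ f := Nat.pow_le_pow_right hp.pos hf
  have hfin : Finite F := Nat.finite_of_card_ne_zero (by omega)
  have := Fintype.ofFinite F
  have hpow : ∀ a : F, a ^ q = a := by
    intro a
    rw [← hF, Nat.card_eq_fintype_card]
    exact FiniteField.pow_card a
  intro hdet
  obtain ⟨v, hv0, hv⟩ := Matrix.exists_mulVec_eq_zero_iff.2 hdet
  set R : L[X] := Polynomial.C (v 0) * Polynomial.X + Polynomial.C (v 1) * Polynomial.X ^ q +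
    Polynomial.C (v 2) * Polynomial.X ^ q ^ 2 with hR
  have hqq : q < q ^ 2 := by nlinarith
  have hdeg : R.natDegree ≤ q ^ 2 := by
    rw [hR]
    compute_degree
    omega
  have hne : R ≠ 0 := by
    intro h0
    apply hv0
    have c0 : R.coeff 1 = v 0 := by
      rw [hR]
      simp only [coeff_add, coeff_C_mul, coeff_X_pow, coeff_X_one]
      rw [if_neg (by omega), if_neg (by omega)]
      ring
    have c1 : R.coeff q = v 1 := by
      rw [hR]
      simp only [coeff_add, coeff_C_mul, coeff_X_pow, coeff_X]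
      rw [if_neg (by omega), if_pos trivial, if_neg (by omega)]
      ring
    have c2 : R.coeff (q ^ 2) = v 2 := by
      rw [hR]
      simp only [coeff_add, coeff_C_mul, coeff_X_pow, coeff_X]
      rw [if_neg (by omega), if_neg (by omega), if_pos trivial]
      ring
    rw [h0, coeff_zero] at c0 c1 c2
    funext i
    fin_cases i
    · exact c0.symm
    · exact c1.symm
    · exact c2.symm
  have hlin : ∀ z : L, R.eval z = v 0 * z + v 1 * z ^ q + v 2 * z ^ q ^ 2 := by
    intro z
    rw [hR]
    simp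
  have hX : ∀ i, R.eval (X i) = 0 := by
    intro i
    have h1 := congrFun hv i
    rw [Matrix.mulVec, dotProduct, Fin.sum_univ_three] at h1
    simp only [Matrix.of_apply, Fin.val_zero, Fin.val_one, Fin.val_two, pow_zero, pow_one,
      Pi.zero_apply] at h1
    rw [hlin]
    linear_combination h1
  have hadd : ∀ a b : L, (a + b) ^ q = a ^ q + b ^ q := fun a b => by
    rw [hq]; exact add_pow_char_pow a b p f
  have hadd2 : ∀ a b : L, (a + b) ^ q ^ 2 = a ^ q ^ 2 + b ^ q ^ 2 := fun a b => by
    rw [pow_two, pow_mul, hadd, hadd, ← pow_mul, ← pow_mul]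
  have hφ : ∀ c : F, φ c ^ q = φ c := fun c => by rw [← map_pow, hpow]
  have hφ2 : ∀ c : F, φ c ^ q ^ 2 = φ c := fun c => by rw [pow_two, pow_mul, hφ, hφ]
  have hRadd : ∀ z w : L, R.eval (z + w) = R.eval z + R.eval w := by
    intro z w
    rw [hlin, hlin, hlin, hadd, hadd2]
    ring
  have hRmul : ∀ (c : F) (z : L), R.eval (φ c * z) = φ c * R.eval z := by
    intro c z
    rw [hlin, hlin, mul_pow, mul_pow, hφ, hφ2]
    ring
  apply hne
  apply Polynomial.eq_zero_of_natDegree_lt_card_of_eval_eq_zero R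
    (f := fun c : Fin 3 → F => ∑ i, φ (c i) * X i) (fun c d h => t32_comb_inj φ X ind c d h)
  · intro c
    rw [Fin.sum_univ_three, hRadd, hRadd, hRmul, hRmul, hRmul, hX, hX, hX]
    ring
  · rw [Fintype.card_fun, Fintype.card_fin, ← Nat.card_eq_fintype_card, hF]
    have : q ^ 2 < q ^ 3 := Nat.pow_lt_pow_right (by omega) (by norm_num)
    omega

/-- `Δ ^ q = - Δ` -/
theorem t32_moore_pow {L : Type} [Field L] {p f q : ℕ} (hp : p.Prime) [CharP L p] (hq : q = p ^ f)
    (X : Fin 3 → L) (A B : L)
    (rel : ∀ i, X i ^ q ^ 3 + A * X i ^ q ^ 2 + B * X i ^ q + X i = 0) :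
    (Matrix.of fun i j : Fin 3 => X i ^ q ^ (j : ℕ)).det ^ q =
      -(Matrix.of fun i j : Fin 3 => X i ^ q ^ (j : ℕ)).det := by
  have : Fact p.Prime := ⟨hp⟩
  have hadd : ∀ a b : L, (a + b) ^ q = a ^ q + b ^ q := fun a b => by
    rw [hq]; exact add_pow_char_pow a b p f
  have hsub : ∀ a b : L, (a - b) ^ q = a ^ q - b ^ q := fun a b => by
    rw [hq]; exact sub_pow_char_pow a b f
  have h2 : ∀ z : L, (z ^ q) ^ q = z ^ q ^ 2 := fun z => by rw [← pow_mul, pow_two]
  have h3 : ∀ z : L, (z ^ q ^ 2) ^ q = z ^ q ^ 3 := fun z => by rw [← pow_mul, ← pow_succ]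
  have hr : ∀ i, X i ^ q ^ 3 = -(A * X i ^ q ^ 2 + B * X i ^ q + X i) := fun i => by
    linear_combination rel i
  rw [Matrix.det_fin_three]
  simp only [Matrix.of_apply, Fin.val_zero, Fin.val_one, Fin.val_two, pow_zero, pow_one]
  simp only [hsub, hadd, mul_pow, h2, h3, hr]
  ring

/-- the action on `Δ` -/
theorem t32_moore_act {F L : Type} [Field F] [Field L] (φ : F →+* L) {p f q : ℕ} (hp : p.Prime)
    [CharP L p] (hq : q = p ^ f) (hF : ∀ a : F, a ^ q = a) (X : Fin 3 → L) (σ : L →+* L)
    (g : Matrix (Fin 3) (Fin 3) F) (hσ : ∀ i, σ (X i) = ∑ j, φ (g j i) * X j) :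
    σ (Matrix.of fun i j : Fin 3 => X i ^ q ^ (j : ℕ)).det =
      φ g.det * (Matrix.of fun i j : Fin 3 => X i ^ q ^ (j : ℕ)).det := by
  have : Fact p.Prime := ⟨hp⟩
  have hφ : ∀ (n : ℕ) (c : F), φ c ^ q ^ n = φ c := by
    intro n c
    induction n with
    | zero => rw [pow_zero, pow_one]
    | succ n ih => rw [pow_succ, pow_mul, ih, ← map_pow, hF]
  have hsum : ∀ (n : ℕ) (u : Fin 3 → L), (∑ i, u i) ^ q ^ n = ∑ i, u i ^ q ^ n := by
    intro n u
    rw [hq, ← pow_mul]
    exact sum_pow_char_pow p (f * n) Finset.univ u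
  have h1 : σ.mapMatrix (Matrix.of fun i j : Fin 3 => X i ^ q ^ (j : ℕ)) =
      (φ.mapMatrix g).transpose * (Matrix.of fun i j : Fin 3 => X i ^ q ^ (j : ℕ)) := by
    ext i j
    rw [RingHom.mapMatrix_apply, Matrix.map_apply, Matrix.of_apply, map_pow, hσ, hsum,
      Matrix.mul_apply]
    refine Finset.sum_congr rfl fun l _ => ?_
    rw [mul_pow, hφ, Matrix.transpose_apply, RingHom.mapMatrix_apply, Matrix.map_apply,
      Matrix.of_apply]
  rw [RingHom.map_det, h1, Matrix.det_mul, Matrix.det_transpose, ← RingHom.map_det]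

/-! ## The splitting field -/

theorem t32_field (p : ℕ) (K F : Type) [Field K] [Field F] (ι : F →+* K) (f q : ℕ) (A B : K)
    (hp : p.Prime) [CharP K p] (hf : 1 ≤ f) (hq : q = p ^ f) (hF : Nat.card F = q) :
    ∃ (L : Type) (_ : Field L) (_ : Algebra K L) (X : Fin 3 → L), IsGalois K L ∧
      FiniteDimensional K L ∧
      (∀ i, X i ^ q ^ 3 + algebraMap K L A * X i ^ q ^ 2 + algebraMap K L B * X i ^ q + X i = 0) ∧
      (∀ c : Fin 3 → F, ∑ i, algebraMap K L (ι (c i)) * X i = 0 → c = 0) ∧
      (∀ z : L, z ^ q ^ 3 + algebraMap K L A * z ^ q ^ 2 + algebraMap K L B * z ^ q + z = 0 →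
        ∃ c : Fin 3 → F, z = ∑ i, algebraMap K L (ι (c i)) * X i) ∧
      (∀ σ τ : L ≃ₐ[K] L, (∀ i, σ (X i) = τ (X i)) → σ = τ) := by
  classical
  have : Fact p.Prime := ⟨hp⟩
  have hq2 : 2 ≤ q := by
    rw [hq]
    calc 2 ≤ p := hp.two_le
      _ = p ^ 1 := (pow_one p).symm
      _ ≤ p ^ f := Nat.pow_le_pow_right hp.pos hf
  have hfin : Finite F := Nat.finite_of_card_ne_zero (by omega)
  have := Fintype.ofFinite F
  have hpow : ∀ a : F, a ^ q = a := by
    intro a
    rw [← hF, Nat.card_eq_fintype_card]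
    exact FiniteField.pow_card a
  have hqK : (q : K) = 0 := by
    rw [hq, Nat.cast_pow, CharP.cast_eq_zero, zero_pow (by omega)]
  have hqq : q < q ^ 2 := by nlinarith
  have hqqq : q ^ 2 < q ^ 3 := Nat.pow_lt_pow_right (by omega) (by norm_num)
  set P : K[X] := Polynomial.X ^ q ^ 3 + Polynomial.C A * Polynomial.X ^ q ^ 2 +
    Polynomial.C B * Polynomial.X ^ q + Polynomial.X with hP
  have hdeg : P.natDegree = q ^ 3 := by
    rw [hP]
    compute_degree!
    · rw [if_neg (by omega), if_neg (by omega), if_neg (by omega)]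
      simp
    all_goals omega
  have hP0 : P ≠ 0 := by
    intro h
    rw [h, natDegree_zero] at hdeg
    omega
  have hder : derivative P = 1 := by
    rw [hP]
    simp only [derivative_add, derivative_X_pow, derivative_C_mul, derivative_X, Nat.cast_pow, hqK]
    rw [zero_pow (by norm_num), zero_pow (by norm_num)]
    simp
  have hsep : P.Separable := by
    rw [separable_def, hder]
    exact isCoprime_one_right
  let L : Type := P.SplittingField
  have hL : P.IsSplittingField K L := inferInstanceAs (P.IsSplittingField K P.SplittingField)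
  have hgal : IsGalois K L := IsGalois.of_separable_splitting_field hsep
  have hfd : FiniteDimensional K L := Polynomial.IsSplittingField.finiteDimensional L P
  have hcL : CharP L p := charP_of_injective_algebraMap (algebraMap K L).injective p
  have hadd : ∀ a b : L, (a + b) ^ q = a ^ q + b ^ q := fun a b => by
    rw [hq]; exact add_pow_char_pow a b p f
  have hadd2 : ∀ a b : L, (a + b) ^ q ^ 2 = a ^ q ^ 2 + b ^ q ^ 2 := fun a b => by
    rw [pow_two, pow_mul, hadd, hadd, ← pow_mul, ← pow_mul]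
  have hadd3 : ∀ a b : L, (a + b) ^ q ^ 3 = a ^ q ^ 3 + b ^ q ^ 3 := fun a b => by
    rw [pow_succ, pow_mul, hadd2, hadd, ← pow_mul, ← pow_mul]
  letI algF : Algebra F L := ((algebraMap K L).comp ι).toAlgebra
  have hsm : ∀ (c : F) (z : L), c • z = algebraMap K L (ι c) * z := fun c z =>
    Algebra.smul_def c z
  have hφ : ∀ c : F, algebraMap K L (ι c) ^ q = algebraMap K L (ι c) := fun c => by
    rw [← map_pow, ← map_pow, hpow]
  have hφ2 : ∀ c : F, algebraMap K L (ι c) ^ q ^ 2 = algebraMap K L (ι c) := fun c => by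
    rw [pow_two, pow_mul, hφ, hφ]
  have hφ3 : ∀ c : F, algebraMap K L (ι c) ^ q ^ 3 = algebraMap K L (ι c) := fun c => by
    rw [pow_succ, pow_mul, hφ2, hφ]
  have haev : ∀ z : L, aeval z P =
      z ^ q ^ 3 + algebraMap K L A * z ^ q ^ 2 + algebraMap K L B * z ^ q + z := by
    intro z
    have h1 : ∀ R : K[X], R = Polynomial.X ^ q ^ 3 + Polynomial.C A * Polynomial.X ^ q ^ 2 +
        Polynomial.C B * Polynomial.X ^ q + Polynomial.X → aeval z R =
        z ^ q ^ 3 + algebraMap K L A * z ^ q ^ 2 + algebraMap K L B * z ^ q + z := by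
      intro R hR
      rw [hR]
      simp
    exact h1 P hP
  let V : Submodule F L :=
    { carrier := {z | z ^ q ^ 3 + algebraMap K L A * z ^ q ^ 2 + algebraMap K L B * z ^ q + z = 0}
      add_mem' := by
        intro z w hz hw
        simp only [Set.mem_setOf_eq] at hz hw ⊢
        rw [hadd3, hadd2, hadd]
        linear_combination hz + hw
      zero_mem' := by
        simp only [Set.mem_setOf_eq]
        rw [zero_pow (by omega), zero_pow (by omega), zero_pow (by omega)]
        ring
      smul_mem' := by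
        intro c z hz
        simp only [Set.mem_setOf_eq] at hz ⊢
        rw [hsm, mul_pow, mul_pow, mul_pow, hφ, hφ2, hφ3]
        linear_combination algebraMap K L (ι c) * hz }
  have hVmem : ∀ z : L, z ∈ V ↔
      z ^ q ^ 3 + algebraMap K L A * z ^ q ^ 2 + algebraMap K L B * z ^ q + z = 0 := fun z =>
    Iff.rfl
  have hVroot : ∀ z : L, z ∈ V ↔ z ∈ P.rootSet L := by
    intro z
    rw [hVmem, Polynomial.mem_rootSet, haev]
    exact ⟨fun h => ⟨hP0, h⟩, fun h => h.2⟩
  have hcard : Nat.card V = q ^ 3 := by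
    have h1 := card_rootSet_eq_natDegree (K := L) hsep
      (Polynomial.IsSplittingField.splits L P)
    rw [hdeg] at h1
    rw [← h1, ← Nat.card_eq_fintype_card]
    exact Nat.card_congr (Equiv.subtypeEquivRight hVroot)
  have hVfin : Finite V := Nat.finite_of_card_ne_zero (by rw [hcard]; positivity)
  have : Module.Finite F V := Module.Finite.of_finite
  have hrank : Module.finrank F V = 3 := by
    have h1 := Module.natCard_eq_pow_finrank (K := F) (V := V)
    rw [hcard, hF] at h1
    exact (Nat.pow_right_injective hq2 h1).symm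
  let b : Module.Basis (Fin 3) F V := Module.finBasisOfFinrankEq F V hrank
  have hcomb : ∀ c : Fin 3 → F, ((∑ i, c i • b i : V) : L) =
      ∑ i, algebraMap K L (ι (c i)) * (b i : L) := by
    intro c
    rw [AddSubmonoidClass.coe_finset_sum]
    refine Finset.sum_congr rfl fun i _ => ?_
    rw [Submodule.coe_smul, hsm]
  have hspan : ∀ z : L,
      z ^ q ^ 3 + algebraMap K L A * z ^ q ^ 2 + algebraMap K L B * z ^ q + z = 0 →
        ∃ c : Fin 3 → F, z = ∑ i, algebraMap K L (ι (c i)) * (b i : L) := by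
    intro z hz
    refine ⟨b.repr ⟨z, hz⟩, ?_⟩
    rw [← hcomb, b.sum_repr]
  refine ⟨L, inferInstance, inferInstance, fun i => (b i : L), hgal, hfd, fun i => (b i).2, ?_,
    hspan, ?_⟩
  · intro c hc
    rw [← hcomb] at hc
    have h1 : (∑ i, c i • b i : V) = 0 := Subtype.ext hc
    have h2 := b.linearIndependent
    rw [Fintype.linearIndependent_iff] at h2
    funext i
    exact h2 c h1 i
  · intro σ τ h
    have h1 : (σ : L →ₐ[K] L) = (τ : L →ₐ[K] L) := by
      apply AlgHom.ext_of_adjoin_eq_top (Polynomial.IsSplittingField.adjoin_rootSet L P)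
      intro z hz
      obtain ⟨c, hc⟩ := hspan z ((hVroot z).2 hz)
      show σ z = τ z
      rw [hc, map_sum, map_sum]
      refine Finset.sum_congr rfl fun i _ => ?_
      rw [map_mul, map_mul, AlgEquiv.commutes, AlgEquiv.commutes, h i]
    ext z
    exact DFunLike.congr_fun h1 z

theorem t32_rat_mem {k L : Type} [Field k] [Field L] [Algebra k L] [Algebra (RatFunc k) L]
    [IsScalarTower k (RatFunc k) L] (u : RatFunc k) :
    algebraMap (RatFunc k) L u ∈
      IntermediateField.adjoin k {algebraMap (RatFunc k) L RatFunc.X} := by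
  have hpol : ∀ q : Polynomial k, algebraMap (RatFunc k) L (algebraMap (Polynomial k) _ q) ∈
      IntermediateField.adjoin k {algebraMap (RatFunc k) L RatFunc.X} := by
    intro q
    rw [← RatFunc.aeval_X_left_eq_algebraMap, ← Polynomial.aeval_algebraMap_apply]
    exact IntermediateField.algebra_adjoin_le_adjoin k _
      (Polynomial.aeval_mem_adjoin_singleton k _)
  rw [← RatFunc.num_div_denom u, map_div₀]
  exact div_mem (hpol _) (hpol _)

/-! ## Places with `t` finite -/

section

variable {k L : Type} [Field k] [Field L] [Algebra k L] (Q : Place k L)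

theorem t32_pow_ge {z : L} (hz : Q.Ge z 0) (n : ℕ) : Q.Ge (z ^ n) 0 := by
  induction n with
  | zero => rw [pow_zero]; exact Or.inr (by rw [Q.ord_one])
  | succ n ih =>
    rw [pow_succ]
    have := Q.ge_mul ih hz
    rwa [add_zero] at this

theorem t32_aeval_ge {t : L} (ht : Q.Ge t 0) (a : k[X]) : Q.Ge (aeval t a) 0 := by
  rw [Polynomial.aeval_eq_sum_range]
  refine Q.ge_sum _ _ _ fun i _ => ?_
  rw [Algebra.smul_def]
  have := Q.ge_mul (Q.ge_const (a.coeff i)) (t32_pow_ge Q ht i)
  rwa [add_zero] at this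

/-- the roots are integral -/
theorem t32_int {A B z : L} {q : ℕ} (hq : 2 ≤ q) (hA : Q.Ge A 0) (hB : Q.Ge B 0)
    (h : z ^ q ^ 3 + A * z ^ q ^ 2 + B * z ^ q + z = 0) : Q.Ge z 0 := by
  by_contra hz
  obtain ⟨hz0, hzlt⟩ := Q.not_ge.1 hz
  have hqq : q < q ^ 2 := by nlinarith
  have hqqq : q ^ 2 < q ^ 3 := Nat.pow_lt_pow_right (by omega) (by norm_num)
  have hmono : ∀ a b : ℕ, a ≤ b → (b : ℤ) * Q.ord z ≤ (a : ℤ) * Q.ord z := by
    intro a b hab
    have : (a : ℤ) ≤ (b : ℤ) := by exact_mod_cast hab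
    nlinarith
  have hz' : ∀ n : ℕ, n ≤ q ^ 2 → Q.Ge (z ^ n) ((q ^ 2 : ℕ) * Q.ord z) := fun n hn =>
    Or.inr (by rw [Q.ord_pow hz0]; exact hmono _ _ hn)
  have g1 : Q.Ge (A * z ^ q ^ 2) ((q ^ 2 : ℕ) * Q.ord z) := by
    have := Q.ge_mul hA (hz' (q ^ 2) le_rfl)
    rwa [zero_add] at this
  have g2 : Q.Ge (B * z ^ q) ((q ^ 2 : ℕ) * Q.ord z) := by
    have := Q.ge_mul hB (hz' q hqq.le)
    rwa [zero_add] at this
  have g3 : Q.Ge z ((q ^ 2 : ℕ) * Q.ord z) := by
    have := hz' 1 (by omega)
    rwa [pow_one] at this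
  have e : z ^ q ^ 3 = -(A * z ^ q ^ 2) - B * z ^ q - z := by
    linear_combination h
  have g4 : Q.Ge (z ^ q ^ 3) ((q ^ 2 : ℕ) * Q.ord z) := by
    rw [e]
    exact Q.ge_sub (Q.ge_sub (Q.ge_neg g1) g2) g3
  have g5 := (Q.ge_iff (pow_ne_zero _ hz0) _).1 g4
  rw [Q.ord_pow hz0] at g5
  have h46' : ((q ^ 2 : ℕ) : ℤ) + 1 ≤ ((q ^ 3 : ℕ) : ℤ) := by exact_mod_cast hqqq
  nlinarith

/-- a root of positive order is `0` -/
theorem t32_zero {A B z : L} {q : ℕ} (hq : 2 ≤ q) (hA : Q.Ge A 0) (hB : Q.Ge B 0)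
    (h : z ^ q ^ 3 + A * z ^ q ^ 2 + B * z ^ q + z = 0) (hz : Q.Ge z 1) : z = 0 := by
  by_contra hz0
  have hz1 : 1 ≤ Q.ord z := (Q.ge_iff hz0 _).1 hz
  have hqq : q < q ^ 2 := by nlinarith
  have hqqq : q ^ 2 < q ^ 3 := Nat.pow_lt_pow_right (by omega) (by norm_num)
  have hz' : ∀ n : ℕ, 2 ≤ n → Q.Ge (z ^ n) (Q.ord z + 1) := fun n hn =>
    Or.inr (by
      rw [Q.ord_pow hz0]
      have : (2 : ℤ) ≤ n := by exact_mod_cast hn
      nlinarith)
  have g1 : Q.Ge (A * z ^ q ^ 2) (Q.ord z + 1) := by
    have := Q.ge_mul hA (hz' (q ^ 2) (by omega))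
    rwa [zero_add] at this
  have g2 : Q.Ge (B * z ^ q) (Q.ord z + 1) := by
    have := Q.ge_mul hB (hz' q hq)
    rwa [zero_add] at this
  have e : z = -(z ^ q ^ 3) - A * z ^ q ^ 2 - B * z ^ q := by
    linear_combination h
  have g3 : Q.Ge z (Q.ord z + 1) := by
    have := Q.ge_sub (Q.ge_sub (Q.ge_neg (hz' (q ^ 3) (by omega))) g1) g2
    rwa [← e] at this
  have g4 := (Q.ge_iff hz0 _).1 g3
  omega

theorem t32_res {z : L} (hz : Q.Ge z 0) : ∃ c : k, Q.Ge (z - algebraMap k L c) 1 := by
  by_cases hz0 : z = 0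
  · exact ⟨0, Or.inl (by rw [hz0, map_zero, sub_zero])⟩
  · obtain ⟨c, hc⟩ := Q.residue z hz0 ((Q.ge_iff hz0 0).1 hz)
    refine ⟨c, ?_⟩
    rcases hc with hc | hc
    · exact Or.inl (by rw [← hc, sub_self])
    · exact Or.inr (by omega)

theorem t32_const {c : k} (h : Q.Ge (algebraMap k L c) 1) : c = 0 := by
  by_contra hc0
  have h4 : algebraMap k L c ≠ 0 := by
    rw [Ne, map_eq_zero]
    exact hc0
  have h5 := (Q.ge_iff h4 1).1 h
  rw [Q.ord_const c hc0] at h5
  omega

end

theorem t32_thm : S_T32 := by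
  intro p k F _ _ _ _ f q a b hp hc hf hq hF
  classical
  have : Fact p.Prime := ⟨hp⟩
  have hq2 : 2 ≤ q := by
    rw [hq]
    calc 2 ≤ p := hp.two_le
      _ = p ^ 1 := (pow_one p).symm
      _ ≤ p ^ f := Nat.pow_le_pow_right hp.pos hf
  have hfin : Finite F := Nat.finite_of_card_ne_zero (by omega)
  have := Fintype.ofFinite F
  have hpow : ∀ a : F, a ^ q = a := by
    intro a
    rw [← hF, Nat.card_eq_fintype_card]
    exact FiniteField.pow_card a
  have hcharK : CharP (RatFunc k) p :=
    charP_of_injective_algebraMap (algebraMap k (RatFunc k)).injective p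
  obtain ⟨L, iL, iA, X, hgal, hfd, hrel, hind, hspan, huniq⟩ := t32_field p (RatFunc k) F
    ((algebraMap k (RatFunc k)).comp (algebraMap F k)) f q (algebraMap k[X] (RatFunc k) a)
    (algebraMap k[X] (RatFunc k) b) hp hf hq hF
  letI iAk : Algebra k L := ((algebraMap (RatFunc k) L).comp (algebraMap k (RatFunc k))).toAlgebra
  have iST : IsScalarTower k (RatFunc k) L := IsScalarTower.of_algebraMap_eq (fun _ => rfl)
  have hcharL : CharP L p := charP_of_injective_algebraMap (algebraMap k L).injective p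
  set t : L := algebraMap (RatFunc k) L RatFunc.X with htdef
  have hpoly : ∀ q : Polynomial k, algebraMap (RatFunc k) L (algebraMap (Polynomial k) _ q) =
      aeval t q := by
    intro q
    rw [← RatFunc.aeval_X_left_eq_algebraMap, ← Polynomial.aeval_algebraMap_apply]
  have hcst : ∀ c : F, algebraMap (RatFunc k) L
      (((algebraMap k (RatFunc k)).comp (algebraMap F k)) c) = cst k F L c := fun c => rfl
  simp only [hpoly, hcst] at hrel hind hspan
  let φ : F →+* L := (algebraMap k L).comp (algebraMap F k)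
  have hφ : ∀ c : F, φ c = cst k F L c := fun c => rfl
  have hcstq : ∀ c : F, cst k F L c ^ q = cst k F L c := fun c => by
    rw [← hφ, ← map_pow, hpow]
  -- the matrices of the automorphisms
  have hex : ∀ (σ : L ≃ₐ[RatFunc k] L) (i : Fin 3), ∃ c : Fin 3 → F,
      σ (X i) = ∑ j, cst k F L (c j) * X j := by
    intro σ i
    apply hspan
    have h1 := congrArg σ (hrel i)
    rw [map_zero, map_add, map_add, map_add, map_mul, map_mul, map_pow, map_pow, map_pow,
      ← hpoly, ← hpoly, AlgEquiv.commutes, AlgEquiv.commutes] at h1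
    rw [← hpoly, ← hpoly]
    exact h1
  choose m hm using hex
  let M : (L ≃ₐ[RatFunc k] L) → Matrix (Fin 3) (Fin 3) F := fun σ =>
    Matrix.of fun j i => m σ i j
  have hM : ∀ σ i, σ (X i) = ∑ j, cst k F L (M σ j i) * X j := fun σ i => hm σ i
  have hMuniq : ∀ (σ : L ≃ₐ[RatFunc k] L) (N : Matrix (Fin 3) (Fin 3) F),
      (∀ i, σ (X i) = ∑ j, cst k F L (N j i) * X j) → M σ = N := by
    intro σ N hN
    ext j i
    have h1 := t32_comb_inj φ X hind (fun j => M σ j i) (fun j => N j i)
      ((hM σ i).symm.trans (hN i))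
    exact congrFun h1 j
  have hM1 : M 1 = 1 := by
    apply hMuniq
    intro i
    rw [AlgEquiv.one_apply, Finset.sum_eq_single i]
    · rw [Matrix.one_apply_eq]
      show X i = algebraMap k L (algebraMap F k 1) * X i
      rw [map_one, map_one, one_mul]
    · intro j _ hj
      rw [Matrix.one_apply_ne hj]
      show algebraMap k L (algebraMap F k 0) * X j = 0
      rw [map_zero, map_zero, zero_mul]
    · intro h
      exact absurd (Finset.mem_univ i) h
  have hMmul : ∀ σ τ, M (σ * τ) = M σ * M τ := by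
    intro σ τ
    apply hMuniq
    intro i
    rw [AlgEquiv.mul_apply, hM τ i, map_sum]
    have h1 : ∀ j, σ (cst k F L (M τ j i) * X j) =
        ∑ l, cst k F L (M σ l j) * cst k F L (M τ j i) * X l := by
      intro j
      have h2 : σ (cst k F L (M τ j i)) = cst k F L (M τ j i) := by
        rw [← hcst, AlgEquiv.commutes]
      rw [map_mul, h2, hM σ j, Finset.mul_sum]
      refine Finset.sum_congr rfl fun l _ => ?_
      ring
    rw [Finset.sum_congr rfl fun j _ => h1 j, Finset.sum_comm]
    refine Finset.sum_congr rfl fun l _ => ?_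
    rw [← Finset.sum_mul]
    congr 1
    rw [Matrix.mul_apply]
    simp only [← hφ]
    rw [map_sum]
    refine Finset.sum_congr rfl fun j _ => ?_
    rw [map_mul]
  -- the determinants
  set Δ : L := (Matrix.of fun i j : Fin 3 => X i ^ q ^ (j : ℕ)).det with hΔ
  have hΔ0 : Δ ≠ 0 := t32_moore φ hp hf hq hF X hind
  have hΔq : Δ ^ q = -Δ := t32_moore_pow hp hq X _ _ hrel
  have hΔk : ∃ δ : k, algebraMap k L δ = Δ := by
    have hint : IsIntegral k Δ := by
      refine ⟨Polynomial.X ^ q + Polynomial.X, ?_, ?_⟩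
      · monicity!
        rw [if_pos (by omega), if_neg (by omega)]
        simp
      · simp [hΔq]
    have h : (minpoly k Δ).degree = 1 :=
      IsAlgClosed.degree_eq_one_of_irreducible k (minpoly.irreducible hint)
    exact minpoly.mem_range_of_degree_eq_one k Δ h
  have hdet : ∀ σ, (M σ).det = 1 := by
    intro σ
    obtain ⟨δ, hδ⟩ := hΔk
    have h1 := t32_moore_act φ hp hq hpow X (σ : L →+* L) (M σ) (hM σ)
    rw [← hΔ] at h1
    have h2 : (σ : L →+* L) Δ = Δ := by
      rw [← hδ]
      exact σ.commutes (algebraMap k (RatFunc k) δ)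
    rw [h2] at h1
    have h3 : φ (M σ).det = 1 := by
      apply mul_right_cancel₀ hΔ0
      rw [← h1, one_mul]
    apply φ.injective
    rw [h3, map_one]
  let Φ : (L ≃ₐ[RatFunc k] L) →* Matrix.SpecialLinearGroup (Fin 3) F :=
    { toFun := fun σ => ⟨M σ, hdet σ⟩
      map_one' := Subtype.ext hM1
      map_mul' := fun σ τ => Subtype.ext (hMmul σ τ) }
  have hΦ : ∀ σ, (Φ σ).1 = M σ := fun σ => rfl
  have hΦinj : Function.Injective Φ := by
    intro σ τ h
    apply huniq
    intro i
    rw [hM σ i, hM τ i, ← hΦ, ← hΦ, h]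
  let e : (L ≃ₐ[RatFunc k] L) ≃* Φ.range := MonoidHom.ofInjective hΦinj
  let ρ : Φ.range →* (L ≃ₐ[k] L) :=
    (AlgEquiv.restrictScalarsHom k).comp e.symm.toMonoidHom
  have hρ : ∀ g z, ρ g z = e.symm g z := fun g z => rfl
  have hact : ∀ (g : Φ.range) (i : Fin 3), ρ g (X i) = ∑ j, cst k F L (g.1.1 j i) * X j := by
    intro g i
    have h1 : M (e.symm g) = g.1.1 := by
      have h2 := congrArg Subtype.val (e.apply_symm_apply g)
      have h3 : (e (e.symm g)).1 = Φ (e.symm g) := rfl
      rw [h3] at h2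
      rw [← hΦ, h2]
    rw [hρ, hM, h1]
  have hinj : Function.Injective ρ := by
    intro g g' h
    apply e.symm.injective
    ext z
    exact DFunLike.congr_fun h z
  have htr : Transcendental k t := by
    rw [htdef]
    exact (transcendental_algebraMap_iff (algebraMap (RatFunc k) L).injective).mpr
      RatFunc.transcendental_X
  refine ⟨L, iL, iAk, t, X, Φ.range, ρ, ⟨hrel, hind, htr⟩, ⟨hact, hinj, htr, ?_, ?_⟩⟩
  · intro z
    constructor
    · intro hz
      have h1 : ∀ σ : L ≃ₐ[RatFunc k] L, σ z = z := by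
        intro σ
        have h2 := hz (e σ)
        rw [hρ, e.symm_apply_apply] at h2
        exact h2
      obtain ⟨u, hu⟩ := (IsGalois.mem_range_algebraMap_iff_fixed (F := RatFunc k) (E := L) z).2 h1
      rw [← hu]
      exact t32_rat_mem u
    · have hK : IntermediateField.adjoin k {t} ≤ IntermediateField.fixedField ρ.range := by
        rw [IntermediateField.adjoin_simple_le_iff]
        rintro ⟨τ, g, rfl⟩
        show ρ g t = t
        rw [hρ, htdef, AlgEquiv.commutes]
      intro hz g
      exact hK hz ⟨ρ g, g, rfl⟩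
  · intro Q ht g hg
    have ht' : Q.Ge t 0 := Or.inr ht
    have hA := t32_aeval_ge Q ht' a
    have hB := t32_aeval_ge Q ht' b
    have hX : ∀ i, Q.Ge (X i) 0 := fun i => t32_int Q hq2 hA hB (hrel i)
    choose u hu using fun i => t32_res Q (hX i)
    -- residues are independent
    have hui : ∀ c : Fin 3 → F, ∑ i, algebraMap F k (c i) * u i = 0 → c = 0 := by
      intro c hc0
      apply hind
      have hroot : (∑ i, cst k F L (c i) * X i) ^ q ^ 3 +
          aeval t a * (∑ i, cst k F L (c i) * X i) ^ q ^ 2 +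
          aeval t b * (∑ i, cst k F L (c i) * X i) ^ q + ∑ i, cst k F L (c i) * X i = 0 := by
        have hs : ∀ n : ℕ, (∑ i, cst k F L (c i) * X i) ^ q ^ n =
            ∑ i, cst k F L (c i) * X i ^ q ^ n := by
          intro n
          have hcn : ∀ (n : ℕ) (c : F), cst k F L c ^ q ^ n = cst k F L c := by
            intro n c
            induction n with
            | zero => rw [pow_zero, pow_one]
            | succ n ih => rw [pow_succ, pow_mul, ih, hcstq]
          have h1 : (∑ i, cst k F L (c i) * X i) ^ q ^ n =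
              ∑ i, (cst k F L (c i) * X i) ^ q ^ n := by
            rw [hq, ← pow_mul]
            exact sum_pow_char_pow p (f * n) Finset.univ _
          rw [h1]
          refine Finset.sum_congr rfl fun i _ => ?_
          rw [mul_pow, hcn]
        have hs1 := hs 1
        rw [pow_one] at hs1
        rw [hs 3, hs 2, hs1]
        rw [Fin.sum_univ_three, Fin.sum_univ_three, Fin.sum_univ_three, Fin.sum_univ_three]
        linear_combination cst k F L (c 0) * hrel 0 + cst k F L (c 1) * hrel 1 +
          cst k F L (c 2) * hrel 2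
      apply t32_zero Q hq2 hA hB hroot
      have h1 : ∑ i, cst k F L (c i) * X i =
          ∑ i, cst k F L (c i) * (X i - algebraMap k L (u i)) := by
        have h2 : ∑ i, cst k F L (c i) * algebraMap k L (u i) = 0 := by
          have h3 := congrArg (algebraMap k L) hc0
          rw [map_zero, map_sum] at h3
          rw [← h3]
          refine Finset.sum_congr rfl fun i _ => ?_
          rw [map_mul]
        simp only [mul_sub]
        rw [Finset.sum_sub_distrib, h2, sub_zero]
      rw [h1]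
      refine Q.ge_sum _ _ _ fun i _ => ?_
      have := Q.ge_mul (Q.ge_const (algebraMap F k (c i))) (hu i)
      rwa [zero_add] at this
    have hcol : ∀ i, (fun j => g.1.1 j i) = (fun j => (1 : Matrix (Fin 3) (Fin 3) F) j i) := by
      intro i
      apply t32_comb_inj (algebraMap F k) u hui
      have h1 : ∑ j, algebraMap F k ((1 : Matrix (Fin 3) (Fin 3) F) j i) * u j = u i := by
        rw [Finset.sum_eq_single i]
        · rw [Matrix.one_apply_eq, map_one, one_mul]
        · intro j _ hj
          rw [Matrix.one_apply_ne hj, map_zero, zero_mul]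
        · intro h
          exact absurd (Finset.mem_univ i) h
      rw [h1]
      rw [← sub_eq_zero]
      apply t32_const Q
      have h2 : Q.Ge (ρ g (X i - algebraMap k L (u i))) 1 := hg.ge (hu i)
      rw [map_sub, AlgEquiv.commutes, hact g i] at h2
      have h3 : Q.Ge (∑ j, cst k F L (g.1.1 j i) * (X j - algebraMap k L (u j))) 1 := by
        refine Q.ge_sum _ _ _ fun j _ => ?_
        have := Q.ge_mul (Q.ge_const (algebraMap F k (g.1.1 j i))) (hu j)
        rwa [zero_add] at this
      have h4 := Q.ge_sub h2 h3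
      have h5 : algebraMap k L (∑ j, algebraMap F k (g.1.1 j i) * u j - u i) =
          ∑ j, cst k F L (g.1.1 j i) * X j - algebraMap k L (u i) -
            ∑ j, cst k F L (g.1.1 j i) * (X j - algebraMap k L (u j)) := by
        rw [map_sub, map_sum]
        simp only [mul_sub, map_mul]
        rw [Finset.sum_sub_distrib]
        ring
      rw [h5]
      exact h4
    apply Subtype.ext
    apply Subtype.ext
    ext j i
    exact congrFun (hcol i) j

end Pool.CND
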